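import Pool.Agent.Helper32_OMP.Stmts

/-!
# OMP, module GENF
-/

set_option autoImplicit false
set_option linter.unusedVariables false

namespace Pool.Agent.Helper32_OMP.H64

open PowerSeries Finset Pool.Agent.Helper6_Mono

section

variable {R : Type*} [CommRing R] (L : Rˣ)

/-- the coefficients of the geometric series with ratio `L ^ (-n) T ^ d`, without the constant term -/
noncomputable def bb (n d N : ℕ) : R := if 0 < N ∧ d ∣ N then Li L ^ (n * (N / d)) else 0

theorem bb_mul {n d j : ℕ} (hd : 0 < d) (hj : 0 < j) : bb L n d (j * d) = Li L ^ (n * j) := by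
  rw [bb, if_pos ⟨Nat.mul_pos hj hd, Nat.dvd_mul_left d j⟩, Nat.mul_div_cancel _ hd]

theorem RP_bb {n d : ℕ} (hd : 0 < d) : RP L (steps {(n : ℚ) / d}) (bb L n d) := by
  refine .step _ n d ⟨hd, rfl⟩ (.fin _ 1 fun m hm => ?_)
  have h1 : d ∣ m + d ↔ d ∣ m := Nat.dvd_add_self_right
  by_cases h : d ∣ m
  · obtain ⟨j, rfl⟩ := h
    have hj : 0 < j := Nat.pos_of_ne_zero fun h => by rw [h, mul_zero] at hm; omega
    rw [show d * j + d = (j + 1) * d by ring, mul_comm d j, bb_mul L hd (Nat.succ_pos j),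
      bb_mul L hd hj]
    have h2 : ((L⁻¹ ^ n : Rˣ) : R) = Li L ^ n := by rw [Units.val_pow_eq_pow_val]
    rw [h2, ← pow_add, show n + n * j = n * (j + 1) by ring, sub_self]
  · rw [bb, if_neg (fun h' => h (h1.1 h'.2)), bb, if_neg (fun h' => h h'.2), mul_zero, sub_zero]

theorem RP_conv {S : Set ℚ} {n d : ℕ} (hd : 0 < d) {s : ℕ → R} (hs : RP L (steps S) s) :
    RP L (steps (S ∪ {(n : ℚ) / d})) (fun m => ∑ j ∈ Finset.Icc 1 m,
        if j * d ≤ m then Li L ^ (n * j) * s (m - j * d) else 0) := by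
  rw [Set.union_comm]
  refine (RP.cauchy (RP_bb L (n := n) hd) hs).congr fun m => ?_
  rw [Finset.Nat.sum_antidiagonal_eq_sum_range_succ (fun x y => bb L n d x * s y) m,
    ← Finset.sum_filter]
  rw [← Finset.sum_filter_of_ne (s := Finset.range m.succ) (p := fun x => 0 < x ∧ d ∣ x)
    (f := fun x => bb L n d x * s (m - x))]
  · symm
    refine Finset.sum_nbij' (fun j => j * d) (fun x => x / d) ?_ ?_ ?_ ?_ ?_
    · intro j hj
      simp only [Finset.mem_filter, Finset.mem_Icc, Finset.mem_range] at hj ⊢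
      exact ⟨by omega, Nat.mul_pos hj.1.1 hd, Nat.dvd_mul_left d j⟩
    · intro x hx
      simp only [Finset.mem_filter, Finset.mem_Icc, Finset.mem_range] at hx ⊢
      obtain ⟨h1, h2, j, rfl⟩ := hx
      rw [Nat.mul_div_cancel_left j hd]
      have hj : 0 < j := Nat.pos_of_ne_zero fun h => by rw [h, mul_zero] at h2; omega
      have h3 : j ≤ d * j := Nat.le_mul_of_pos_left j hd
      exact ⟨⟨hj, by omega⟩, by rw [mul_comm]; omega⟩
    · intro j hj
      exact Nat.mul_div_cancel j hd
    · intro x hx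
      simp only [Finset.mem_filter, Finset.mem_range] at hx
      exact Nat.div_mul_cancel hx.2.2
    · intro j hj
      simp only [Finset.mem_filter, Finset.mem_Icc, Finset.mem_range] at hj
      rw [bb_mul L hd hj.1.1]
  · intro x _ hx
    by_contra h
    exact hx (by rw [bb, if_neg h, zero_mul])

theorem RP_prod {ι : Type} (I : Finset ι) (a : ι → ℕ) (ha : ∀ i, 0 < a i) :
    RP L (steps {x | ∃ i ∈ I, x = 1 / (a i : ℚ)})
      (fun m => coeff m (∏ i ∈ I, PowerSeries.mk (bb L 1 (a i)))) := by
  classical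
  induction I using Finset.induction_on with
  | empty =>
    refine .fin _ 1 fun m hm => ?_
    rw [Finset.prod_empty, coeff_one, if_neg (by omega)]
  | insert i I hi ih =>
    have h1 := RP.cauchy (RP_bb L (n := 1) (ha i)) ih
    refine (h1.mono ?_).congr fun m => ?_
    · rintro ⟨u, v⟩ ⟨h2, h3⟩
      refine ⟨h2, ?_⟩
      rcases h3 with h3 | ⟨j, hj, h3⟩
      · refine ⟨i, Finset.mem_insert_self _ _, ?_⟩
        rw [Set.mem_singleton_iff] at h3
        rw [h3, Nat.cast_one]
      · exact ⟨j, Finset.mem_insert_of_mem hj, h3⟩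
    · rw [Finset.prod_insert hi, coeff_mul]
      refine Finset.sum_congr rfl fun p _ => ?_
      rw [coeff_mk]

theorem sI_eq {ι : Type} (I : Finset ι) (a : ι → ℕ) (ha : ∀ i, 0 < a i) (M : ℕ) :
    sI L I a M = coeff M (∏ i ∈ I, PowerSeries.mk (bb L 1 (a i))) := by
  classical
  rw [coeff_prod]
  unfold sI
  rw [← Finset.sum_filter]
  rw [← Finset.sum_filter_of_ne (s := Finset.finsuppAntidiag I M)
    (p := fun l => ∀ i ∈ I, 0 < l i ∧ a i ∣ l i)]
  · refine Finset.sum_bij' (fun u _ => Finsupp.indicator I fun i hi => a i * ((u ⟨i, hi⟩ : ℕ) + 1))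
      (fun l _ => fun i => Fin.ofNat (M + 1) (l i / a i - 1)) ?_ ?_ ?_ ?_ ?_
    · intro u hu
      simp only [Finset.mem_filter, Finset.mem_univ, true_and] at hu
      rw [Finset.mem_filter, Finset.mem_finsuppAntidiag]
      refine ⟨⟨?_, Finsupp.support_indicator_subset _ _⟩, fun i hi => ?_⟩
      · refine Eq.trans ?_ hu.2
        rw [← Finset.sum_coe_sort I]
        refine Finset.sum_congr rfl fun i _ => ?_
        rw [Finsupp.indicator_of_mem i.2]
      · rw [Finsupp.indicator_of_mem hi]
        exact ⟨Nat.mul_pos (ha i) (Nat.succ_pos _), Nat.dvd_mul_right _ _⟩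
    · intro l hl
      rw [Finset.mem_filter, Finset.mem_finsuppAntidiag] at hl
      obtain ⟨⟨h1, h2⟩, h3⟩ := hl
      have h4 : ∀ i : I, l i ≤ M := fun i => by
        rw [← h1]
        exact Finset.single_le_sum (f := fun i => l i) (fun _ _ => Nat.zero_le _) i.2
      have h5 : ∀ i : I, a i * (l i / a i - 1 + 1) = l i := fun i => by
        obtain ⟨h6, j, h7⟩ := h3 i i.2
        rw [h7, Nat.mul_div_cancel_left _ (ha i)]
        have hj : 0 < j := Nat.pos_of_ne_zero fun h => by rw [h, mul_zero] at h7; omega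
        rw [Nat.sub_add_cancel hj]
      have h6 : ∀ i : I, l i / a i - 1 < M := fun i => by
        have h7 := h5 i
        have h8 : l i / a i - 1 + 1 ≤ a i * (l i / a i - 1 + 1) := Nat.le_mul_of_pos_left _ (ha i)
        have h9 := h4 i
        omega
      have h7 : ∀ i : I, ((Fin.ofNat (M + 1) (l i / a i - 1) : Fin (M + 1)) : ℕ) = l i / a i - 1 :=
        fun i => by
          rw [Fin.val_ofNat, Nat.mod_eq_of_lt (by have := h6 i; omega)]
      rw [Finset.mem_filter]
      refine ⟨Finset.mem_univ _, fun i => ?_, ?_⟩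
      · rw [h7]
        exact h6 i
      · refine Eq.trans ?_ h1
        rw [← Finset.sum_coe_sort I]
        refine Finset.sum_congr rfl fun i _ => ?_
        rw [h7, h5]
    · intro u hu
      funext i
      apply Fin.ext
      rw [Finsupp.indicator_of_mem i.2, Nat.mul_div_cancel_left _ (ha i), Nat.add_sub_cancel,
        Fin.val_ofNat, Nat.mod_eq_of_lt (u i).2]
    · intro l hl
      rw [Finset.mem_filter, Finset.mem_finsuppAntidiag] at hl
      obtain ⟨⟨h1, h2⟩, h3⟩ := hl
      ext i
      by_cases hi : i ∈ I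
      · rw [Finsupp.indicator_of_mem hi]
        have h4 : l i ≤ M := by
          rw [← h1]
          exact Finset.single_le_sum (f := fun i => l i) (fun _ _ => Nat.zero_le _) hi
        obtain ⟨h6, j, h7⟩ := h3 i hi
        have hj : 0 < j := Nat.pos_of_ne_zero fun h => by rw [h, mul_zero] at h7; omega
        have h8 : j ≤ a i * j := Nat.le_mul_of_pos_left _ (ha i)
        rw [Fin.val_ofNat, h7, Nat.mul_div_cancel_left _ (ha i), Nat.mod_eq_of_lt (by omega),
          Nat.sub_add_cancel hj]
      · rw [Finsupp.indicator_of_notMem hi]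
        by_contra h
        exact hi (h2 (Finsupp.mem_support_iff.2 fun h' => h h'.symm))
    · intro u hu
      rw [← Finset.prod_coe_sort I]
      rw [← Finset.prod_pow_eq_pow_sum]
      refine Finset.prod_congr rfl fun i _ => ?_
      rw [Finsupp.indicator_of_mem i.2, coeff_mk, mul_comm (a i) _,
        bb_mul L (ha i) (Nat.succ_pos _), one_mul]
  · intro l hl h
    by_contra h'
    push Not at h'
    obtain ⟨i, hi, h1⟩ := h'
    refine h (Finset.prod_eq_zero hi ?_)
    rw [coeff_mk, bb, if_neg (fun h2 => h1 h2.1 h2.2)]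

end

/-- MODULE GENF -/
theorem genf : GenfStmt := by
  intro R _ L
  refine ⟨fun ι I a ha => ?_, fun S n d hd s hs => RP_conv L hd hs⟩
  exact (RP_prod L I a ha).congr fun m => (sI_eq L I a ha m).symm

end Pool.Agent.Helper32_OMP.H64
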