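import Pool.Agent.Helper32_OMP.Stmts

/-!
# OMP, module PAT
-/

set_option autoImplicit false
set_option linter.unusedVariables false

namespace Pool.Agent.Helper32_OMP.H64

open Finset Pool.Agent.Helper6_Mono

theorem aeval_eq_eval_map {k σ : Type} [Field k] [Algebra k ℂ] (z : σ → ℂ)
    (p : MvPolynomial σ k) : MvPolynomial.aeval z p
      = MvPolynomial.eval z (MvPolynomial.map (algebraMap k ℂ) p) := by
  rw [MvPolynomial.aeval_def, MvPolynomial.eval_map]

open scoped Classical in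
theorem PhiM_inr {k σ ι : Type} [Field k] (g : ι → MvPolynomial σ k) (I : Finset ι)
    (τ : I ↪ σ) : PhiM g (Sum.inr ⟨I, τ⟩)
      = (Matrix.of fun i i' : I => MvPolynomial.pderiv (τ i') (g i)).det := rfl

/-- MODULE PAT -/
theorem pat (hNul : NulStmt) (hMinor : MinorStmt) : PatStmt := by
  classical
  intro k _ _ σ ι Q _ _ _ q V g hsnc U hU S _ _ y hq hy
  set E : Set (MvPolynomial σ k) := {e | (∃ i ∈ zset U, e = g i) ∨
    ∃ τ : (zset U) ↪ σ, e = PhiM g (Sum.inr ⟨zset U, τ⟩)} with hE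
  set H : MvPolynomial σ k := (∏ t ∈ V, q t) * ∏ i ∈ univ \ zset U, g i with hH
  have hz : ∀ z : σ → ℂ, (∀ e ∈ E, MvPolynomial.aeval z e = 0) →
      MvPolynomial.aeval z H = 0 := by
    intro z h1
    by_contra h2
    rw [hH, map_mul, map_prod, map_prod] at h2
    have h3 := Finset.prod_ne_zero_iff.1 (left_ne_zero_of_mul h2)
    have h4 := Finset.prod_ne_zero_iff.1 (right_ne_zero_of_mul h2)
    have h5 := hsnc z h3
    have h6 : ∀ i : zset U, MvPolynomial.eval z (MvPolynomial.map (algebraMap k ℂ) (g i)) = 0 := by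
      intro i
      rw [← aeval_eq_eval_map]
      exact h1 _ (Or.inl ⟨i, i.2, rfl⟩)
    have h7 : LinearIndependent ℂ (fun i : zset U => fun l : σ => MvPolynomial.eval z
        (MvPolynomial.pderiv l (MvPolynomial.map (algebraMap k ℂ) (g i)))) :=
      LinearIndependent.comp h5 (fun i : zset U => ⟨(i : ι), h6 i⟩) fun i j hij =>
        Subtype.ext (by simpa using hij)
    obtain ⟨τ, hτ⟩ := hMinor ℂ σ (zset U) _ h7
    apply hτ
    have h8 := h1 _ (Or.inr ⟨τ, rfl⟩)
    rw [PhiM_inr, AlgHom.map_det] at h8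
    rw [← h8]
    congr 1
    ext i i'
    rw [Matrix.of_apply, AlgHom.mapMatrix_apply, Matrix.map_apply, Matrix.of_apply,
      aeval_eq_eval_map, MvPolynomial.pderiv_map]
  obtain ⟨N, hN⟩ := hNul k σ E H hz
  have h1 : MvPolynomial.aeval y (H ^ N) = 0 := by
    have h2 : Ideal.span E ≤ RingHom.ker (MvPolynomial.aeval y : MvPolynomial σ k →ₐ[k] S) := by
      rw [Ideal.span_le]
      rintro e (⟨i, hi, rfl⟩ | ⟨τ, rfl⟩)
      · rw [zset, Finset.mem_filter] at hi
        exact (hy (Sum.inl i)).2 hi.2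
      · exact (hy _).2 fun h3 => hU ⟨τ, h3⟩
    exact h2 hN
  have h2 : IsUnit (MvPolynomial.aeval y H) := by
    rw [hH, map_mul, map_prod, map_prod]
    refine IsUnit.mul (Finset.prod_induction _ IsUnit (fun _ _ => IsUnit.mul) isUnit_one
      fun t ht => hq t ht) (Finset.prod_induction _ IsUnit (fun _ _ => IsUnit.mul) isUnit_one
      fun i hi => ?_)
    rw [Finset.mem_sdiff, zset, Finset.mem_filter] at hi
    have h3 : Sum.inl i ∈ U := by
      by_contra h4
      exact hi.2 ⟨Finset.mem_univ _, h4⟩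
    exact (hy (Sum.inl i)).1 h3
  rw [map_pow] at h1
  have h3 := h2.pow N
  rw [h1] at h3
  exact (isUnit_zero_iff.1 h3).symm

end Pool.Agent.Helper32_OMP.H64
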