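import Pool.Agent.Helper32_OMP.Stmts

/-!
# OMP, module GEX
-/

set_option autoImplicit false
set_option linter.unusedVariables false

namespace Pool.Agent.Helper32_OMP.H64

open Finset Pool.Agent.Helper6_Mono

section

variable {k : Type} [Field k] {σ : Type}

/-- substitution of `t y` into a homogeneous polynomial -/
theorem aeval_scale {g : MvPolynomial σ k} {j : ℕ} (hg : g.IsHomogeneous j) :
    MvPolynomial.aeval (fun l => MvPolynomial.X none * MvPolynomial.X (some l) :
        σ → MvPolynomial (Option σ) k) g
      = MvPolynomial.X none ^ j * MvPolynomial.rename some g := by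
  classical
  rw [MvPolynomial.rename_eq_aeval, MvPolynomial.aeval_def, MvPolynomial.eval₂_eq,
    MvPolynomial.aeval_def, MvPolynomial.eval₂_eq, Finset.mul_sum]
  refine Finset.sum_congr rfl fun e he => ?_
  have h1 : ∑ i ∈ e.support, e i = j := by
    have h2 := hg (MvPolynomial.mem_support_iff.1 he)
    rw [Finsupp.weight_apply, Finsupp.sum] at h2
    simpa using h2
  have h3 : ∏ i ∈ e.support, (MvPolynomial.X none * MvPolynomial.X (some i) :
      MvPolynomial (Option σ) k) ^ e i
      = MvPolynomial.X none ^ j * ∏ i ∈ e.support, (MvPolynomial.X (some i) :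
        MvPolynomial (Option σ) k) ^ e i := by
    rw [← h1, ← Finset.prod_pow_eq_pow_sum, ← Finset.prod_mul_distrib]
    exact Finset.prod_congr rfl fun i _ => mul_pow _ _ _
  rw [h3]
  simp only [Function.comp]
  ring

theorem sum_comp (g : MvPolynomial σ k) {n : ℕ} (hn : g.totalDegree < n) :
    ∑ j ∈ Finset.range n, MvPolynomial.homogeneousComponent j g = g := by
  conv_rhs => rw [← MvPolynomial.sum_homogeneousComponent g]
  symm
  refine Finset.sum_subset (Finset.range_subset_range.2 hn) fun j _ hj => ?_
  rw [Finset.mem_range, not_lt] at hj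
  exact MvPolynomial.homogeneousComponent_eq_zero _ _ (by omega)

theorem IsWH_rename_some {g : MvPolynomial σ k} {j : ℕ} (hg : g.IsHomogeneous j) :
    MvPolynomial.IsWeightedHomogeneous (wG σ) (MvPolynomial.rename some g) (j : ℤ) := by
  classical
  intro e he
  obtain ⟨e', rfl, h2⟩ := MvPolynomial.coeff_rename_ne_zero some g e he
  have h3 := hg h2
  rw [Finsupp.weight_apply, Finsupp.sum] at h3
  rw [Finsupp.weight_apply, Finsupp.sum_mapDomain_index (h := fun i c => c • wG σ i)
    (fun _ => zero_smul _ _) (fun _ _ _ => add_smul _ _ _), Finsupp.sum]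
  rw [← h3]
  push_cast
  refine Finset.sum_congr rfl fun i _ => ?_
  simp

theorem at0_mul (F G : MvPolynomial (Option σ) k) : at0 (F * G) = at0 F * at0 G := by
  rw [at0, at0, at0, map_mul]

theorem at0_X_pow {i : ℕ} (hi : i ≠ 0) :
    at0 (MvPolynomial.X none ^ i : MvPolynomial (Option σ) k) = 0 := by
  rw [at0, map_pow, MvPolynomial.aeval_X]
  exact zero_pow hi

theorem at0_rename (g : MvPolynomial σ k) : at0 (MvPolynomial.rename some g) = g := by
  rw [at0, MvPolynomial.aeval_rename]
  exact MvPolynomial.aeval_X_left_apply g

end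

/-- MODULE GEX -/
theorem gex : GexStmt := by
  classical
  intro k _ σ f p d h
  set g := tra p f with hg
  have hc : ∀ j, (MvPolynomial.homogeneousComponent j g).IsHomogeneous j := fun j =>
    MvPolynomial.homogeneousComponent_isHomogeneous j g
  refine ⟨∑ i ∈ Finset.range (g.totalDegree + 1), MvPolynomial.X none ^ i *
    MvPolynomial.rename some (MvPolynomial.homogeneousComponent (d + i) g), ?_, ?_, ?_⟩
  · have h1 : MvPolynomial.aeval (fun l => MvPolynomial.C (p l) + MvPolynomial.X none *
        MvPolynomial.X (some l) : σ → MvPolynomial (Option σ) k) f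
        = MvPolynomial.aeval (fun l => MvPolynomial.X none * MvPolynomial.X (some l) :
          σ → MvPolynomial (Option σ) k) g := by
      have h2 := (MvPolynomial.comp_aeval_apply (fun l => MvPolynomial.X l
        + MvPolynomial.C (p l) : σ → MvPolynomial σ k) (MvPolynomial.aeval
          (fun l => MvPolynomial.X none * MvPolynomial.X (some l) :
          σ → MvPolynomial (Option σ) k)) f)
      rw [hg, tra, h2]
      congr 2
      funext l
      rw [map_add, MvPolynomial.aeval_X, MvPolynomial.aeval_C, add_comm]
      rfl
    rw [h1]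
    conv_lhs => rw [← sum_comp g (n := d + (g.totalDegree + 1)) (by omega)]
    rw [map_sum, Finset.sum_congr rfl fun j _ => aeval_scale (hc j), Finset.sum_range_add,
      Finset.sum_eq_zero, zero_add, Finset.mul_sum]
    · refine Finset.sum_congr rfl fun i _ => ?_
      rw [pow_add, mul_assoc]
    · intro j hj
      rw [h j (Finset.mem_range.1 hj), map_zero, mul_zero]
  · refine MvPolynomial.IsWeightedHomogeneous.sum _ _ _ fun i _ => ?_
    have h1 := (MvPolynomial.isWeightedHomogeneous_X k (wG σ) (none : Option σ)).pow i
    have h2 := h1.mul (IsWH_rename_some (hc (d + i)))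
    have h3 : i • wG σ none + ((d + i : ℕ) : ℤ) = (d : ℤ) := by
      show i • (-1 : ℤ) + ((d + i : ℕ) : ℤ) = (d : ℤ)
      rw [smul_neg, nsmul_one]
      push_cast
      ring
    rwa [h3] at h2
  · have h1 : ∀ i ∈ Finset.range (g.totalDegree + 1), at0 (MvPolynomial.X none ^ i *
        MvPolynomial.rename some (MvPolynomial.homogeneousComponent (d + i) g))
        = if i = 0 then MvPolynomial.homogeneousComponent d g else 0 := by
      intro i _
      rw [at0_mul, at0_rename]
      split_ifs with hi
      · subst hi
        rw [pow_zero, at0, map_one, one_mul, add_zero]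
      · rw [at0_X_pow hi, zero_mul]
    have h2 : at0 (∑ i ∈ Finset.range (g.totalDegree + 1), MvPolynomial.X none ^ i *
        MvPolynomial.rename some (MvPolynomial.homogeneousComponent (d + i) g))
        = ∑ i ∈ Finset.range (g.totalDegree + 1), at0 (MvPolynomial.X none ^ i *
        MvPolynomial.rename some (MvPolynomial.homogeneousComponent (d + i) g)) := by
      rw [at0, map_sum]
      rfl
    rw [h2, Finset.sum_congr rfl h1, Finset.sum_ite_eq' (Finset.range (g.totalDegree + 1)) 0
      (fun _ => MvPolynomial.homogeneousComponent d g), if_pos (Finset.mem_range.2 (by omega))]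

end Pool.Agent.Helper32_OMP.H64
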